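import Pool.Agent.H60.LQ.Cfg

/-!
# LQ, row AXI2: lower bounds for `xi`, explicit coefficients (twin of H34/KTH/AXI)
-/

set_option autoImplicit false

namespace Pool.LQ

open Finset Real
open Pool.Agent.H49.Ent Pool.Agent.H32.Dense Pool.KTH
open Pool.Agent.H24.KTH (dsv lvv lev cap Yf kp)

namespace AXI97

/-- `log (J + 2)` is small against `lm J`, up to a constant -/
theorem log_small (ε : ℝ) (hε : 0 < ε) : ∃ D : ℝ, 0 ≤ D ∧ ∀ J : ℕ,
    Real.log ((J : ℝ) + 2) ≤ D + ε * lm J := by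
  have hl2 : 0 < Real.log 2 := Real.log_pos (by norm_num)
  obtain ⟨δ, hδ⟩ : ∃ δ : ℝ, δ = ε * Real.log 2 := ⟨_, rfl⟩
  have hδ0 : 0 < δ := by rw [hδ]; positivity
  refine ⟨2 * δ + |Real.log δ|, by positivity, fun J => ?_⟩
  have hJ : (0 : ℝ) ≤ J := Nat.cast_nonneg _
  have h1 : Real.log (δ * ((J : ℝ) + 2)) ≤ δ * ((J : ℝ) + 2) - 1 :=
    Real.log_le_sub_one_of_pos (by positivity)
  rw [Real.log_mul hδ0.ne' (by positivity)] at h1
  have h2 : -Real.log δ ≤ |Real.log δ| := neg_le_abs _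
  have h3 : ε * lm J = δ * J := by
    unfold lm
    rw [hδ]
    ring
  rw [h3]
  nlinarith

variable {d J : ℕ}

/-- two chain rules -/
theorem swap {Ω S T U : Type} [Fintype Ω] {p : Ω → ℝ} (hp : ∀ ω, 0 ≤ p ω) (X : Ω → S) (Y : Ω → T)
    (W : Ω → U) : CH p X W = CH p Y W + CH p X (fun ω => (Y ω, W ω)) -
      CH p Y (fun ω => (X ω, W ω)) := by
  have h1 := CH_chain hp X Y W
  have h2 := CH_chain hp Y X W
  have h3 : CH p (fun ω => (X ω, Y ω)) W = CH p (fun ω => (Y ω, X ω)) W := by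
    refine CH_congr hp ?_ ?_ (fun _ _ _ _ h => h) (fun _ _ _ _ h => h) <;>
    · intro ω ω' _ _ h
      simp only [Prod.mk.injEq] at h ⊢
      tauto
  linarith

/-- the inequality with all terms, explicit -/
theorem core (F : Cf d J) (A B K : ℝ)
    (htb : lm J - K ≤ CH F.q F.ta
      (fun w => (F.v3 w, (F.t w, F.s w), (F.t₁ w, F.r w, F.tr w), F.Z w)))
    (hcT : 2 * lm J - K - eta F - A ≤ CH F.q (fun w => (F.c w, F.TY w))
      (fun w => (F.v3 w, (F.t w, F.s w, F.ta w), F.Z w)))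
    (hth : CH F.q F.v₁ (fun w => (F.O w, F.v₂ w, (F.ta w, F.Y w), F.Z w)) ≤ B) :
    F.et + F.qs + F.y12 + KI F + gY F - eta F - 2 * K -
      CH F.q F.s (fun w => (F.v12 w, F.O w, F.Z w)) - B - A ≤ F.xi := by
  have hq := F.hq
  have hdet : ∀ (w w' : F.Ω), 0 < F.q w → 0 < F.q w' → F.v₂ w = F.v₂ w' → F.Z w = F.Z w' →
      F.u₂ w = F.u₂ w' := fun w w' a b h1 h2 => F.hu₂ w w' a b (Prod.ext h1 h2)
  -- f1
  have f1 : CH F.q F.O (fun w => (F.v₂ w, (F.ta w, F.Y w), F.Z w)) ≤ F.xi := by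
    unfold Cf.xi
    refine CH_mono_cond hq ?_
    intro w w' a b h
    simp only [Prod.mk.injEq] at h
    obtain ⟨h1, ⟨h2, h3⟩, h4⟩ := h
    have h5 := hdet w w' a b h1 h4
    simp only [Prod.mk.injEq]
    refine ⟨?_, h3, h4⟩
    simp only [Cf.A₂, pp, h1, h2, h5]
  -- f2
  have f2 := swap hq F.O F.v₁ (fun w => (F.v₂ w, (F.ta w, F.Y w), F.Z w))
  -- f3
  have f3 := swap hq F.v₁ F.ta (fun w => (F.v₂ w, F.Y w, F.Z w))
  have f3a : CH F.q F.ta (fun w => (F.v₂ w, F.Y w, F.Z w)) = lm J - KI F := by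
    unfold KI
    ring
  have f3c : CH F.q F.v₁ (fun w => (F.ta w, F.v₂ w, F.Y w, F.Z w)) =
      CH F.q F.v₁ (fun w => (F.v₂ w, (F.ta w, F.Y w), F.Z w)) := by
    refine CH_congr hq (fun _ _ _ _ h => (Prod.ext_iff.mp h).1) (fun _ _ _ _ h => (Prod.ext_iff.mp h).1)
      ?_ ?_ <;>
    · intro w w' a b h
      simp only [Prod.mk.injEq] at h ⊢
      tauto
  have het : CH F.q F.v₁ (fun w => (F.v₂ w, F.Y w, F.Z w)) = F.et := rfl
  -- f4
  have f4 := swap hq F.O F.s (fun w => (F.v₁ w, F.v₂ w, (F.ta w, F.Y w), F.Z w))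
  have f4a : CH F.q F.s (fun w => (F.O w, F.v₁ w, F.v₂ w, (F.ta w, F.Y w), F.Z w)) ≤
      CH F.q F.s (fun w => (F.v12 w, F.O w, F.Z w)) := by
    refine CH_mono_cond hq ?_
    intro w w' a b h
    simp only [Cf.v12, Prod.mk.injEq] at h ⊢
    tauto
  -- f5: `s` against `(ta, Y)`
  have f5 := swap hq F.s (fun w => (F.ta w, F.Y w)) (fun w => (F.v₁ w, F.v₂ w, F.Z w))
  have hqs : CH F.q F.s (fun w => (F.v₁ w, F.v₂ w, F.Z w)) = F.qs := rfl
  have f5a : CH F.q F.s (fun w => ((F.ta w, F.Y w), F.v₁ w, F.v₂ w, F.Z w)) =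
      CH F.q F.s (fun w => (F.v₁ w, F.v₂ w, (F.ta w, F.Y w), F.Z w)) := by
    refine CH_congr hq (fun _ _ _ _ h => (Prod.ext_iff.mp h).1) (fun _ _ _ _ h => (Prod.ext_iff.mp h).1)
      ?_ ?_ <;>
    · intro w w' a b h
      simp only [Prod.mk.injEq] at h ⊢
      tauto
  -- `H(ta, Y | v₁ v₂) = H(Y | v₁ v₂) + H(ta | v₁ v₂ Y)`
  have f5b : CH F.q (fun w => (F.ta w, F.Y w)) (fun w => (F.v₁ w, F.v₂ w, F.Z w)) =
      (2 * lm J - F.y12 - gY F) + CH F.q F.ta (fun w => (F.v₁ w, F.v₂ w, F.Y w, F.Z w)) := by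
    have h1 := CH_chain hq F.ta F.Y (fun w => (F.v₁ w, F.v₂ w, F.Z w))
    have h2 : CH F.q F.Y (fun w => (F.v₁ w, F.v₂ w, F.Z w)) = 2 * lm J - F.y12 - gY F := by
      have h3 : CH F.q F.Y (fun w => (F.v₁ w, F.v₂ w, F.Z w)) =
          CH F.q F.Y (fun w => (F.v12 w, F.Z w)) := by
        refine CH_congr hq (fun _ _ _ _ h => (Prod.ext_iff.mp h).1)
          (fun _ _ _ _ h => (Prod.ext_iff.mp h).1) ?_ ?_ <;>
        · intro w w' a b h
          simp only [Cf.v12, Prod.mk.injEq] at h ⊢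
          tauto
      rw [h3]
      unfold gY
      ring
    have h4 : CH F.q F.ta (fun w => (F.Y w, F.v₁ w, F.v₂ w, F.Z w)) =
        CH F.q F.ta (fun w => (F.v₁ w, F.v₂ w, F.Y w, F.Z w)) := by
      refine CH_congr hq (fun _ _ _ _ h => (Prod.ext_iff.mp h).1)
        (fun _ _ _ _ h => (Prod.ext_iff.mp h).1) ?_ ?_ <;>
      · intro w w' a b h
        simp only [Prod.mk.injEq] at h ⊢
        tauto
    rw [← h2, ← h4]
    linarith
  -- `H(ta, Y | s v₁ v₂) = H(ta | s v₁ v₂) + H(Y | ta s v₁ v₂)`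
  have f5c : (lm J - K) + CH F.q F.Y (fun w => (F.s w, F.v₁ w, F.v₂ w, F.ta w, F.Z w)) ≤
      CH F.q (fun w => (F.ta w, F.Y w)) (fun w => (F.s w, F.v₁ w, F.v₂ w, F.Z w)) := by
    have h1 := CH_chain hq F.Y F.ta (fun w => (F.s w, F.v₁ w, F.v₂ w, F.Z w))
    have h2 : CH F.q (fun w => (F.Y w, F.ta w)) (fun w => (F.s w, F.v₁ w, F.v₂ w, F.Z w)) =
        CH F.q (fun w => (F.ta w, F.Y w)) (fun w => (F.s w, F.v₁ w, F.v₂ w, F.Z w)) := by
      refine CH_congr hq ?_ ?_ (fun _ _ _ _ h => h) (fun _ _ _ _ h => h) <;>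
      · intro w w' a b h
        simp only [Prod.mk.injEq] at h ⊢
        tauto
    have h3 : lm J - K ≤ CH F.q F.ta (fun w => (F.s w, F.v₁ w, F.v₂ w, F.Z w)) := by
      refine htb.trans (CH_mono_cond hq ?_)
      intro w w' a b h
      simp only [Cf.v3, Prod.mk.injEq] at h ⊢
      tauto
    have h4 : CH F.q F.Y (fun w => (F.ta w, F.s w, F.v₁ w, F.v₂ w, F.Z w)) =
        CH F.q F.Y (fun w => (F.s w, F.v₁ w, F.v₂ w, F.ta w, F.Z w)) := by
      refine CH_congr hq (fun _ _ _ _ h => (Prod.ext_iff.mp h).1)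
        (fun _ _ _ _ h => (Prod.ext_iff.mp h).1) ?_ ?_ <;>
      · intro w w' a b h
        simp only [Prod.mk.injEq] at h ⊢
        tauto
    linarith
  -- f6
  have f6 : CH F.q F.c (fun w => (F.s w, F.v₁ w, F.v₂ w, (F.ta w, F.Y w), F.Z w)) ≤
      CH F.q F.O (fun w => (F.s w, F.v₁ w, F.v₂ w, (F.ta w, F.Y w), F.Z w)) := by
    refine CH_mono_left hq ?_
    intro w w' a b h
    simp only [Prod.mk.injEq] at h
    have h1 : (F.O w).1 = (F.O w').1 := by rw [h.1]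
    have h2 : F.s w + F.c w = F.s w' + F.c w' := h1
    have h3 : F.s w = F.s w' := h.2.1
    linarith
  have f6a := CH_chain hq F.c F.Y (fun w => (F.s w, F.v₁ w, F.v₂ w, F.ta w, F.Z w))
  have f6b : CH F.q F.c (fun w => (F.Y w, F.s w, F.v₁ w, F.v₂ w, F.ta w, F.Z w)) =
      CH F.q F.c (fun w => (F.s w, F.v₁ w, F.v₂ w, (F.ta w, F.Y w), F.Z w)) := by
    refine CH_congr hq (fun _ _ _ _ h => (Prod.ext_iff.mp h).1) (fun _ _ _ _ h => (Prod.ext_iff.mp h).1)
      ?_ ?_ <;>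
    · intro w w' a b h
      simp only [Prod.mk.injEq] at h ⊢
      tauto
  have f6d : 2 * lm J - K - eta F - A ≤
      CH F.q (fun w => (F.c w, F.Y w)) (fun w => (F.s w, F.v₁ w, F.v₂ w, F.ta w, F.Z w)) := by
    refine hcT.trans ?_
    refine le_trans (CH_mono_cond hq (W := fun w => (F.s w, F.v₁ w, F.v₂ w, F.ta w, F.Z w)) ?_)
      (CH_mono_left hq ?_)
    · intro w w' a b h
      simp only [Cf.v3, Prod.mk.injEq] at h ⊢
      tauto
    · intro w w' a b h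
      simp only [Prod.mk.injEq] at h ⊢
      obtain ⟨⟨h1, h2⟩, h3⟩ := h
      refine ⟨h1, ?_⟩
      have h4 : (F.Y w).1 = (F.Y w').1 := by rw [h2]
      exact h4
  linarith

end AXI97

open AXI97 in
/-- **AXI2**. -/
theorem axi2 (hUFD : UFD2Stmt) (hSEP : SEP2Stmt) (hFCO : FCO2Stmt) : AXI2Stmt := by
  intro d hd
  obtain ⟨-, -, -, ⟨C2, hC2, h2⟩⟩ := hUFD d
  obtain ⟨-, ⟨C3, hC3, h3⟩⟩ := hSEP d hd
  refine ⟨⟨C2 + C3, by linarith, ?_⟩, ?_⟩
  · intro J F L sb K G hF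
    have hlog : 0 ≤ Real.log ((J : ℝ) + 2) := Real.log_nonneg (by
      have : (0 : ℝ) ≤ J := Nat.cast_nonneg _
      linarith)
    have g2 := h2 J F L sb K G hF
    have g3 := h3 J F
    have g3' : C3 * (en F + 1 + Real.log ((J : ℝ) + 2)) ≤ C3 * (G + 1 + Real.log ((J : ℝ) + 2)) :=
      mul_le_mul_of_nonneg_left (by linarith [hF.ge]) hC3
    have h := core F (C2 * (G + 1 + Real.log ((J : ℝ) + 2))) F.et K hF.cta (by linarith)
      (CH_mono_cond F.hq (by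
        intro w w' a b h
        simp only [Prod.mk.injEq] at h ⊢
        tauto))
    nlinarith
  · intro ε hε
    obtain ⟨C1, hC1, h1⟩ := hFCO d hd (ε / 2) (by positivity)
    obtain ⟨D, hD, hDJ⟩ := log_small (ε / (2 * (C2 + 1))) (by positivity)
    refine ⟨C1 + C2 + C2 * D, by positivity, ?_⟩
    intro J F L sb K G hF
    have hlm : 0 ≤ lm J := by
      unfold lm
      positivity
    have g1 := h1 J F L sb K G hF
    have g2 := h2 J F L sb K G hF
    have h := core F (C2 * (G + 1 + Real.log ((J : ℝ) + 2)))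
      (CH F.q F.v₁ (fun w => (F.O w, F.v₂ w, F.Z w))) K hF.cta (by linarith)
      (CH_mono_cond F.hq (by
        intro w w' a b h
        simp only [Prod.mk.injEq] at h ⊢
        tauto))
    have k1 : C2 * Real.log ((J : ℝ) + 2) ≤ C2 * D + ε / 2 * lm J := by
      have k2 := mul_le_mul_of_nonneg_left (hDJ J) hC2
      have k3 : C2 * (D + ε / (2 * (C2 + 1)) * lm J) ≤ C2 * D + ε / 2 * lm J := by
        have k4 : C2 * (ε / (2 * (C2 + 1)) * lm J) ≤ ε / 2 * lm J := by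
          have k5 : C2 * (ε / (2 * (C2 + 1)) * lm J) = (C2 / (C2 + 1)) * (ε / 2 * lm J) := by
            field_simp
          rw [k5]
          have k6 : C2 / (C2 + 1) ≤ 1 := by
            rw [div_le_one (by linarith)]
            linarith
          exact mul_le_of_le_one_left (by positivity) k6
        linarith
      linarith
    have k7 : 0 ≤ C2 * D * G := mul_nonneg (mul_nonneg hC2 hD) hF.G0
    have k8 : ε / 2 * lm J + ε / 2 * lm J = ε * lm J := by ring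
    nlinarith

end Pool.LQ
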